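import Pool.Agent.TH716.TW.Fin
import Pool.Agent.H528R5.HugeMat

/-!
# Matroids of rank three whose rational representations are not elementary

The chain of relations of `Pool.Agent.TH716.TW` written as a system of elementary constraints and
then as a matroid, as in `Pool.Agent.H528R5`.
-/

set_option autoImplicit false

namespace Pool.Agent.TH758.TW

open Pool.Agent.NPC Pool.Agent.H881R2.Mat Pool.Agent.H528R5
open Pool.Agent.H528R2 (QSat HoldsQ)

/-- the tower of twos of height `n` -/
def tw (n : ℕ) : ℕ := (fun k => 2 ^ k)^[n] 1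

theorem tw_succ (n : ℕ) : tw (n + 1) = 2 ^ tw n := by
  unfold tw
  rw [Function.iterate_succ_apply']

theorem tow_eq (n : ℕ) : TH716.TW.tow n = tw n := by
  induction n with
  | zero => rfl
  | succ n ih => rw [tw_succ, ← ih]; rfl

theorem tw_pos (n : ℕ) : 0 < tw n := by
  cases n with
  | zero => unfold tw; simp
  | succ n => rw [tw_succ]; positivity

/-- systems of linear size, one variable of which is a tower in every solution -/
theorem tower_systems : ∃ L : ℕ, ∀ n : ℕ, ∃ (S : List ER.Con) (t : ℕ), S.length ≤ L * (n + 1) ∧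
    QSat S ∧ ∀ v : ℕ → ℚ, (∀ c ∈ S, HoldsQ v c) →
      tw n ≤ max (v t).num.natAbs (v t).den := by
  obtain ⟨L, hL⟩ := chain_sys TH716.TW.dio_start TH716.TW.dio_step
  refine ⟨L, fun n => ?_⟩
  obtain ⟨S, h1, h2, h3⟩ := hL n
  refine ⟨S, st n 0, h1, ?_, ?_⟩
  · obtain ⟨x, hx⟩ := TH716.TW.chR_exists TH716.TW.grp TH716.TW.gen TH716.TW.exist n
    exact h3 x hx
  · intro v hv
    rw [← tow_eq]
    exact TH716.TW.chain_huge TH716.TW.grp TH716.TW.gen TH716.TW.rank TH716.TW.tabs.1
      TH716.TW.tabs.2.1 TH716.TW.tabs.2.2 TH75.J1411.result TH75.J1412.result TH716.TW.sound n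
      (fun i j => v (st i j)) (h2 v hv)

theorem numeric3 (n H : ℕ) (h : tw (n + 3) ≤ 2592 * H ^ 36) : tw n ≤ H := by
  by_contra hlt
  push Not at hlt
  rw [tw_succ, tw_succ, tw_succ] at h
  set b := tw n with hb
  by_cases hb1 : b ≤ 1
  · have h0 : H = 0 := by omega
    subst h0
    simp at h
  by_cases hb2 : b = 2
  · rw [hb2] at h hlt
    have hH : H = 0 ∨ H = 1 := by omega
    rcases hH with rfl | rfl <;> norm_num at h
  have hb3 : 3 ≤ b := by omega
  have h2 : 2592 * H ^ 36 < 2 ^ (12 + 36 * b) := by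
    have hH : H ≤ 2 ^ b := (hlt.trans Nat.lt_two_pow_self).le
    calc 2592 * H ^ 36 < 2 ^ 12 * (2 ^ b) ^ 36 := by
          apply Nat.mul_lt_mul_of_lt_of_le (by norm_num) (Nat.pow_le_pow_left hH 36)
          positivity
      _ = 2 ^ (12 + 36 * b) := by
          rw [← pow_mul, ← pow_add]; ring_nf
  have h3 : 12 + 36 * b ≤ 2 ^ (2 ^ b) := by
    have h4 : ∀ k : ℕ, 12 + 36 * (k + 3) ≤ 2 ^ (2 ^ (k + 3)) := by
      intro k
      induction k with
      | zero => norm_num
      | succ k ih =>
        have e : 2 ^ (2 ^ (k + 1 + 3)) = 2 ^ (2 ^ (k + 3)) * 2 ^ (2 ^ (k + 3)) := by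
          rw [← pow_add]; congr 1; ring
        rw [e]
        nlinarith
    have := h4 (b - 3)
    rwa [show b - 3 + 3 = b by omega] at this
  have h6 := h2.trans_le (Nat.pow_le_pow_right (by norm_num : 0 < 2) h3)
  omega

/-- Loopless matroids of rank `3` with linearly many elements, representable over `ℚ`, all of whose
representations over `ℚ` have an entry whose height is at least a tower. -/
theorem tower_representations : ∃ C : ℕ, ∀ n : ℕ, ∃ (N : ℕ) (M : Matroid (Fin N)),
    N ≤ C * (n + 1) ∧ M.E = Set.univ ∧ M.eRank = 3 ∧ (∀ e, M.Indep {e}) ∧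
    (∃ A : Matrix (Fin 3) (Fin N) ℚ, ∀ I : Set (Fin N),
      M.Indep I ↔ LinearIndependent ℚ (fun j : I => fun i => A i j)) ∧
    ∀ (m : ℕ) (A : Matrix (Fin m) (Fin N) ℚ),
      (∀ I : Set (Fin N), M.Indep I ↔ LinearIndependent ℚ (fun j : I => fun i => A i j)) →
      ∃ i j, (fun k => 2 ^ k)^[n] 1 ≤ max (A i j).num.natAbs (A i j).den := by
  obtain ⟨L, hL⟩ := tower_systems
  refine ⟨4 + 210 * (4 * L), fun n => ?_⟩
  obtain ⟨S, t, hS, hsat, hhuge⟩ := hL (n + 3)
  obtain ⟨M, hM⟩ : ∃ M : Matroid (Fin (labs (toW S)).length), IsM (toW S) M := by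
    obtain ⟨M, hE, hB⟩ := isMat3_inst (toW S) (distinct_toW S)
    exact ⟨M, hE, hB⟩
  refine ⟨(labs (toW S)).length, M, ?_, hM.hE, ?_, ?_, ?_, ?_⟩
  · have h1 := length_labs (toW S)
    have h2 := length_toW S
    have h3 : L * (n + 3 + 1) ≤ 4 * L * (n + 1) := by nlinarith
    have h4 : S.length ≤ 4 * L * (n + 1) := hS.trans h3
    have h5 : 4 ≤ 4 * (n + 1) := by omega
    calc (labs (toW S)).length ≤ 4 + 210 * S.length := by omega
      _ ≤ 4 * (n + 1) + 210 * (4 * L * (n + 1)) := by
          have := Nat.mul_le_mul_left 210 h4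
          omega
      _ = (4 + 210 * (4 * L)) * (n + 1) := by ring
  · obtain ⟨B, hBase⟩ := M.exists_isBase
    obtain ⟨F, rfl, hc, -⟩ := hM.base_finset hBase
    rw [← hBase.encard_eq_eRank, Set.encard_coe_eq_coe_finsetCard, hc]
    rfl
  · intro e
    obtain ⟨B, hBm, heB⟩ := noLoops_inst (toW S) e.1 e.2
    obtain ⟨i, j, k, hij, hjk, hd, rfl⟩ := (mem_inst (toW S) B).1 hBm
    refine ((hM.indep_triple hij hjk).2 hd).subset ?_
    intro x hx
    rw [Set.mem_singleton_iff] at hx
    subst hx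
    simp only [List.mem_cons, List.not_mem_nil, or_false] at heB
    rcases heB with h | h | h
    · left; exact Fin.ext h
    · right; left; exact Fin.ext h
    · right; right; exact Fin.ext h
  · have hp : PlaneRep (toW S) := planeRep_of_wsat _ ((wsat_toW S).2 hsat)
    obtain ⟨v, hv⟩ := hM.representable hp
    exact ⟨Matrix.of (fun i j => v j i), hv⟩
  · intro m A hA
    change ∃ i j, tw n ≤ max (A i j).num.natAbs (A i j).den
    by_contra hlt
    push Not at hlt
    obtain ⟨r, idx, hp⟩ := hM.plane (v := fun j i => A i j) hA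
    have hpos : 0 < tw n := tw_pos n
    obtain ⟨v, hv1, hv2⟩ := small_solution (S := S) (H := tw n - 1) hp
      (fun l _ i => by
        have := hlt (r i) (idx l)
        have h2 : hh (prj r (fun i => A i (idx l)) i) < tw n := this
        omega)
    have h1 := hhuge v hv1
    have h2 := hv2 t
    have h3 := numeric3 n _ (h1.trans h2)
    omega

end Pool.Agent.TH758.TW
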